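import Mathlib

/-!
# A null cone in the sphere

If `Z` is a null set of the plane then the cone
`{t • (n₀ - α r₁ - β r₂) | t ∈ ℝ, (α, β) ∈ Z}` is a null set of `ℝ³`; hence so is its trace on the
unit sphere.
-/

namespace Pool.Agent.Lib.MP_81590e_gt

open MeasureTheory Set Filter Topology
open scoped Pointwise

abbrev E3 : Type := EuclideanSpace ℝ (Fin 3)

/-- Area (Lebesgue measure on the unit sphere) of the trace of a set on the unit sphere. -/
noncomputable def sphereArea (S : Set E3) : ENNReal :=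
  (volume : Measure E3).toSphere (Subtype.val ⁻¹' S : Set (Metric.sphere (0 : E3) 1))

/-- the cone over a plane set -/
def coneOver (n₀ r₁ r₂ : E3) (Z : Set (ℝ × ℝ)) : Set E3 :=
  (fun q : (ℝ × ℝ) × ℝ => q.2 • (n₀ - q.1.1 • r₁ - q.1.2 • r₂)) '' (Z ×ˢ univ)

lemma volume_coneOver (n₀ r₁ r₂ : E3) {Z : Set (ℝ × ℝ)} (hZ : volume Z = 0) :
    volume (coneOver n₀ r₁ r₂ Z) = 0 := by
  have hdim : Module.finrank ℝ ((ℝ × ℝ) × ℝ) = Module.finrank ℝ E3 := by simp
  let Θ : ((ℝ × ℝ) × ℝ) ≃L[ℝ] E3 := ContinuousLinearEquiv.ofFinrankEq hdim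
  let g : (ℝ × ℝ) × ℝ → E3 := fun q => q.2 • (n₀ - q.1.1 • r₁ - q.1.2 • r₂)
  have hg : Differentiable ℝ g := by
    intro q
    fun_prop
  have h1 : volume (Z ×ˢ (univ : Set ℝ)) = 0 := by
    rw [Measure.volume_eq_prod, Measure.prod_prod, hZ, zero_mul]
  have h2 : volume (Θ '' (Z ×ˢ (univ : Set ℝ))) = 0 := by
    have hH2 : (volume : Measure (ℝ × ℝ)).IsAddHaarMeasure := by
      rw [Measure.volume_eq_prod]; infer_instance
    have hH3 : (volume : Measure ((ℝ × ℝ) × ℝ)).IsAddHaarMeasure := by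
      rw [Measure.volume_eq_prod]; infer_instance
    have hHaar : (Measure.map Θ (volume : Measure ((ℝ × ℝ) × ℝ))).IsAddHaarMeasure :=
      Θ.isAddHaarMeasure_map _
    have hac : (volume : Measure E3) ≪ Measure.map Θ (volume : Measure ((ℝ × ℝ) × ℝ)) :=
      Measure.absolutelyContinuous_isAddHaarMeasure _ _
    apply hac
    show (Measure.map Θ.toHomeomorph.toMeasurableEquiv (volume : Measure ((ℝ × ℝ) × ℝ))) _ = 0
    rw [Θ.toHomeomorph.toMeasurableEquiv.map_apply]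
    have h3 : (Θ.toHomeomorph.toMeasurableEquiv ⁻¹' (Θ '' (Z ×ˢ (univ : Set ℝ)))) =
        Z ×ˢ (univ : Set ℝ) := by
      show Θ ⁻¹' (Θ '' (Z ×ˢ (univ : Set ℝ))) = _
      exact preimage_image_eq _ Θ.injective
    rw [h3]
    exact h1
  have h4 : volume ((g ∘ Θ.symm) '' (Θ '' (Z ×ˢ (univ : Set ℝ)))) = 0 :=
    addHaar_image_eq_zero_of_differentiableOn_of_addHaar_eq_zero volume
      ((hg.comp Θ.symm.differentiable).differentiableOn) h2
  have h5 : (g ∘ Θ.symm) '' (Θ '' (Z ×ˢ (univ : Set ℝ))) = coneOver n₀ r₁ r₂ Z := by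
    rw [image_image]
    simp only [Function.comp_apply, ContinuousLinearEquiv.symm_apply_apply]
    rfl
  rw [h5] at h4
  exact h4

/-- open subsets of the plane are countable unions of compact sets -/
lemma isSigmaCompact_of_isOpen {D : Set (ℝ × ℝ)} (hD : IsOpen D) : IsSigmaCompact D := by
  rw [isSigmaCompact_iff_sigmaCompactSpace]
  have : LocallyCompactSpace D := hD.locallyCompactSpace
  infer_instance

lemma isSigmaCompact_prod_univ {Z : Set (ℝ × ℝ)} (hZ : IsSigmaCompact Z) :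
    IsSigmaCompact (Z ×ˢ (univ : Set ℝ)) := by
  obtain ⟨K, hK, rfl⟩ := hZ
  have : (⋃ n, K n) ×ˢ (univ : Set ℝ) =
      ⋃ p : ℕ × ℕ, K p.1 ×ˢ Icc (-(p.2 : ℝ)) p.2 := by
    ext ⟨z, t⟩
    simp only [mem_prod, mem_iUnion, mem_univ, and_true, Prod.exists]
    constructor
    · rintro ⟨n, hn⟩
      obtain ⟨m, hm⟩ := exists_nat_ge |t|
      exact ⟨n, m, hn, abs_le.mp hm⟩
    · rintro ⟨n, m, hn, _⟩
      exact ⟨n, hn⟩
  rw [this]
  apply isSigmaCompact_iUnion_of_isCompact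
  intro p
  exact (hK p.1).prod isCompact_Icc

lemma measurableSet_of_isSigmaCompact {S : Set E3} (hS : IsSigmaCompact S) : MeasurableSet S := by
  obtain ⟨K, hK, rfl⟩ := hS
  exact MeasurableSet.iUnion fun n => (hK n).isClosed.measurableSet

/-- **Sphere lemma.** If `D` is open, `a`, `b` are continuous on `D` and the range of `(a, b)` is
null, then any set of vectors of the form `t • (n₀ - a r₁ - b r₂)` has zero area in the sphere. -/
lemma sphereArea_eq_zero (n₀ r₁ r₂ : E3) {D : Set (ℝ × ℝ)} (hD : IsOpen D)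
    {a b : ℝ × ℝ → ℝ} (ha : ContinuousOn a D) (hb : ContinuousOn b D)
    (hnull : volume ((fun z => (a z, b z)) '' D) = 0) {S : Set E3}
    (hS : ∀ v ∈ S, ∃ t : ℝ, ∃ z ∈ D, v = t • (n₀ - a z • r₁ - b z • r₂)) :
    sphereArea S = 0 := by
  set Z := (fun z => (a z, b z)) '' D with hZ
  have hZσ : IsSigmaCompact Z := (isSigmaCompact_of_isOpen hD).image_of_continuousOn (ha.prodMk hb)
  have hCσ : IsSigmaCompact (coneOver n₀ r₁ r₂ Z) := by
    refine (isSigmaCompact_prod_univ hZσ).image ?_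
    fun_prop
  have hCm := measurableSet_of_isSigmaCompact hCσ
  have hCnull := volume_coneOver n₀ r₁ r₂ hnull
  have hSC : S ⊆ coneOver n₀ r₁ r₂ Z := by
    intro v hv
    obtain ⟨t, z, hz, rfl⟩ := hS v hv
    exact ⟨((a z, b z), t), ⟨⟨z, hz, rfl⟩, mem_univ _⟩, rfl⟩
  have hle : sphereArea S ≤ sphereArea (coneOver n₀ r₁ r₂ Z) :=
    measure_mono (preimage_mono hSC)
  refine le_antisymm (hle.trans ?_) zero_le
  unfold sphereArea
  rw [Measure.toSphere_apply' _ (hCm.preimage measurable_subtype_coe)]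
  have hsub : Ioo (0 : ℝ) 1 • (Subtype.val '' (Subtype.val ⁻¹' (coneOver n₀ r₁ r₂ Z) :
      Set (Metric.sphere (0 : E3) 1))) ⊆ coneOver n₀ r₁ r₂ Z := by
    rintro _ ⟨s, _, _, ⟨v, ⟨⟨w, t⟩, ⟨hw, _⟩, hv⟩, rfl⟩, rfl⟩
    refine ⟨(w, s * t), ⟨hw, mem_univ _⟩, ?_⟩
    simp only at hv ⊢
    rw [← hv, smul_smul]
  have h6 : volume (Ioo (0 : ℝ) 1 • (Subtype.val '' (Subtype.val ⁻¹' (coneOver n₀ r₁ r₂ Z) :
      Set (Metric.sphere (0 : E3) 1)))) = 0 := measure_mono_null hsub hCnull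
  rw [h6, mul_zero]

end Pool.Agent.Lib.MP_81590e_gt
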