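import Mathlib

/-!
# The plane part

Let `u` be a `C^1` function on an open set `D` of the plane such that through each point of `D`
there passes a segment along which the gradient `(a, b)` of `u` is constant.  Then the gradient
range has Lebesgue measure zero.
-/

namespace Pool.Agent.Lib.MP_81590e_gt

open MeasureTheory Set Filter Topology

/-- `u` is `C^1` on the open set `D` with gradient `(a, b)`. -/
structure GradData (D : Set (ℝ × ℝ)) (u a b : ℝ × ℝ → ℝ) : Prop where
  open_dom : IsOpen D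
  cont_a : ContinuousOn a D
  cont_b : ContinuousOn b D
  deriv : ∀ z ∈ D, HasFDerivAt u
    ((a z) • ContinuousLinearMap.fst ℝ ℝ ℝ + (b z) • ContinuousLinearMap.snd ℝ ℝ ℝ) z

/-- a segment of slope `m` over `[c - δ, c + δ]` through `(c, h)` with constant gradient -/
def Seg (D : Set (ℝ × ℝ)) (a b : ℝ × ℝ → ℝ) (c h m δ : ℝ) : Prop :=
  ∀ s ∈ Icc (-δ) δ, (c + s, h + m * s) ∈ D ∧ a (c + s, h + m * s) = a (c, h) ∧
    b (c + s, h + m * s) = b (c, h)

variable {D : Set (ℝ × ℝ)} {u a b : ℝ × ℝ → ℝ}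

lemma GradData.hasDerivAt_line (hG : GradData D u a b) {z w : ℝ × ℝ} {s : ℝ}
    (h : z + s • w ∈ D) :
    HasDerivAt (fun s : ℝ => u (z + s • w)) (a (z + s • w) * w.1 + b (z + s • w) * w.2) s := by
  have h1 := hG.deriv _ h
  have h2 : HasDerivAt (fun s : ℝ => z + s • w) w s := by
    have := ((hasDerivAt_id s).smul_const w).const_add z
    simpa using this
  have h3 : HasDerivAt (fun s : ℝ => u (z + s • w))
      (((a (z + s • w)) • ContinuousLinearMap.fst ℝ ℝ ℝ +
        (b (z + s • w)) • ContinuousLinearMap.snd ℝ ℝ ℝ) w) s := h1.comp_hasDerivAt s h2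
  have h4 : ((a (z + s • w)) • ContinuousLinearMap.fst ℝ ℝ ℝ +
        (b (z + s • w)) • ContinuousLinearMap.snd ℝ ℝ ℝ) w =
      a (z + s • w) * w.1 + b (z + s • w) * w.2 := by simp
  rw [h4] at h3
  exact h3

lemma Seg.value (hG : GradData D u a b) {c h m δ : ℝ} (hδ : 0 ≤ δ) (hS : Seg D a b c h m δ)
    {s : ℝ} (hs : s ∈ Icc (-δ) δ) :
    u (c + s, h + m * s) = u (c, h) + s * (a (c, h) + m * b (c, h)) := by
  have hpt : ∀ t : ℝ, ((c, h) : ℝ × ℝ) + t • ((1, m) : ℝ × ℝ) = (c + t, h + m * t) := by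
    intro t; ext <;> simp [mul_comm]
  have hderiv : ∀ t ∈ Icc (-δ) δ, HasDerivWithinAt
      (fun t : ℝ => u (((c, h) : ℝ × ℝ) + t • ((1, m) : ℝ × ℝ)) - t * (a (c, h) + m * b (c, h)))
      ((fun _ => (0 : ℝ)) t) (Icc (-δ) δ) t := by
    intro t ht
    obtain ⟨h1, h2, h3⟩ := hS t ht
    have h4 : ((c, h) : ℝ × ℝ) + t • ((1, m) : ℝ × ℝ) ∈ D := by rw [hpt]; exact h1
    have h5 := hG.hasDerivAt_line h4
    have h6 : HasDerivAt (fun t : ℝ => t * (a (c, h) + m * b (c, h)))
        (1 * (a (c, h) + m * b (c, h))) t := (hasDerivAt_id t).mul_const _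
    have h7 := h5.sub h6
    rw [hpt] at h7
    simp only [h2, h3] at h7
    have h8 : a (c, h) * ((1, m) : ℝ × ℝ).1 + b (c, h) * ((1, m) : ℝ × ℝ).2 -
        1 * (a (c, h) + m * b (c, h)) = 0 := by simp; ring
    rw [h8] at h7
    exact h7.hasDerivWithinAt
  have h0 : (0 : ℝ) ∈ Icc (-δ) δ := ⟨by linarith, hδ⟩
  have := (convex_Icc (-δ) δ).norm_image_sub_le_of_norm_hasDerivWithin_le hderiv
    (C := 0) (fun t _ => by simp) h0 hs
  simp only [hpt] at this
  have h9 : ‖u (c + s, h + m * s) - s * (a (c, h) + m * b (c, h)) -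
      (u (c + 0, h + m * 0) - 0 * (a (c, h) + m * b (c, h)))‖ ≤ 0 := by simpa using this
  have h10 := norm_le_zero_iff.mp h9
  simp only [add_zero, mul_zero, zero_mul, sub_zero] at h10
  linarith

lemma vertical_estimate (hG : GradData D u a b) {x y₁ y₂ β η : ℝ}
    (hD : ∀ y ∈ uIcc y₁ y₂, (x, y) ∈ D) (hb : ∀ y ∈ uIcc y₁ y₂, |b (x, y) - β| ≤ η) :
    |u (x, y₁) - u (x, y₂) - β * (y₁ - y₂)| ≤ η * |y₁ - y₂| := by
  have hpt : ∀ t : ℝ, ((x, 0) : ℝ × ℝ) + t • ((0, 1) : ℝ × ℝ) = (x, t) := by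
    intro t; ext <;> simp
  have hderiv : ∀ t ∈ uIcc y₁ y₂, HasDerivWithinAt
      (fun t : ℝ => u (((x, 0) : ℝ × ℝ) + t • ((0, 1) : ℝ × ℝ)) - t * β)
      ((fun t => b (x, t) - β) t) (uIcc y₁ y₂) t := by
    intro t ht
    have h4 : ((x, 0) : ℝ × ℝ) + t • ((0, 1) : ℝ × ℝ) ∈ D := by rw [hpt]; exact hD t ht
    have h5 := hG.hasDerivAt_line h4
    have h6 : HasDerivAt (fun t : ℝ => t * β) (1 * β) t := (hasDerivAt_id t).mul_const _
    have h7 := h5.sub h6
    rw [hpt] at h7
    have h8 : a (x, t) * ((0, 1) : ℝ × ℝ).1 + b (x, t) * ((0, 1) : ℝ × ℝ).2 - 1 * β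
        = b (x, t) - β := by simp
    rw [h8] at h7
    exact h7.hasDerivWithinAt
  have := (convex_uIcc y₁ y₂).norm_image_sub_le_of_norm_hasDerivWithin_le hderiv
    (C := η) (fun t ht => by rw [Real.norm_eq_abs]; exact hb t ht) right_mem_uIcc left_mem_uIcc
  simp only [hpt, Real.norm_eq_abs] at this
  have h9 : u (x, y₁) - u (x, y₂) - β * (y₁ - y₂) =
      u (x, y₁) - y₁ * β - (u (x, y₂) - y₂ * β) := by ring
  rw [h9]
  exact this

/-- **The basic estimate** for the gradients on two non-crossing (or crossing) segments. -/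
lemma core_estimate (hG : GradData D u a b) {c h₁ m₁ h₂ m₂ δ η : ℝ} (hδ : 0 < δ) (hη : 0 ≤ η)
    (hS₁ : Seg D a b c h₁ m₁ δ) (hS₂ : Seg D a b c h₂ m₂ δ)
    (hD : ∀ s ∈ Icc (-δ) δ, ∀ y ∈ uIcc (h₁ + m₁ * s) (h₂ + m₂ * s), (c + s, y) ∈ D)
    (hb : ∀ s ∈ Icc (-δ) δ, ∀ y ∈ uIcc (h₁ + m₁ * s) (h₂ + m₂ * s),
      |y - (h₂ + m₂ * s)| ≤ 2 * |h₁ - h₂| → |b (c + s, y) - b (c, h₂)| ≤ η) :
    |(a (c, h₁) - a (c, h₂)) + m₁ * (b (c, h₁) - b (c, h₂))| ≤ 4 * |h₁ - h₂| * η / δ := by
  by_cases hcross : ∃ s ∈ Icc (-δ) δ, h₁ + m₁ * s = h₂ + m₂ * s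
  · obtain ⟨s, hs, hcr⟩ := hcross
    obtain ⟨_, h1, h2⟩ := hS₁ s hs
    obtain ⟨_, h3, h4⟩ := hS₂ s hs
    rw [hcr] at h1 h2
    rw [h3] at h1
    rw [h4] at h2
    rw [← h1, ← h2]
    simp only [sub_self, mul_zero, add_zero, abs_zero]
    positivity
  · push Not at hcross
    -- the slopes are close
    have hslope : |m₁ - m₂| * δ ≤ |h₁ - h₂| := by
      by_contra hcon
      push Not at hcon
      have hm : m₁ - m₂ ≠ 0 := by
        intro h0
        rw [h0, abs_zero, zero_mul] at hcon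
        exact absurd hcon (not_lt.mpr (abs_nonneg _))
      apply hcross (-(h₁ - h₂) / (m₁ - m₂))
      · rw [mem_Icc, ← abs_le, abs_div, abs_neg]
        rw [div_le_iff₀ (abs_pos.mpr hm)]
        linarith [mul_comm δ |m₁ - m₂|]
      · field_simp
        ring
    have hdist : ∀ s ∈ Icc (-δ) δ, |(h₁ + m₁ * s) - (h₂ + m₂ * s)| ≤ 2 * |h₁ - h₂| := by
      intro s hs
      have h1 : (h₁ + m₁ * s) - (h₂ + m₂ * s) = (h₁ - h₂) + (m₁ - m₂) * s := by ring
      rw [h1]
      refine (abs_add_le _ _).trans ?_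
      rw [abs_mul]
      have h2 : |m₁ - m₂| * |s| ≤ |m₁ - m₂| * δ :=
        mul_le_mul_of_nonneg_left (abs_le.mpr hs) (abs_nonneg _)
      linarith
    have hvert : ∀ s ∈ Icc (-δ) δ,
        |u (c + s, h₁ + m₁ * s) - u (c + s, h₂ + m₂ * s) -
          b (c, h₂) * ((h₁ + m₁ * s) - (h₂ + m₂ * s))| ≤ 2 * |h₁ - h₂| * η := by
      intro s hs
      have h1 := vertical_estimate hG (x := c + s) (y₁ := h₁ + m₁ * s) (y₂ := h₂ + m₂ * s)
        (β := b (c, h₂)) (η := η) (hD s hs) (by
          intro y hy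
          apply hb s hs y hy
          refine le_trans ?_ (hdist s hs)
          have := abs_sub_right_of_mem_uIcc (a := h₁ + m₁ * s) (b := h₂ + m₂ * s) hy
          rw [abs_sub_comm (h₁ + m₁ * s), abs_sub_comm y]
          exact this)
      refine h1.trans ?_
      have h2 := mul_le_mul_of_nonneg_left (hdist s hs) hη
      linarith
    have hδm : δ ∈ Icc (-δ) δ := ⟨by linarith, le_rfl⟩
    have h0m : (0 : ℝ) ∈ Icc (-δ) δ := ⟨by linarith, hδ.le⟩
    have e1 := hvert δ hδm
    have e2 := hvert 0 h0m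
    rw [hS₁.value hG hδ.le hδm, hS₂.value hG hδ.le hδm] at e1
    simp only [mul_zero, add_zero] at e2
    have e3 : δ * ((a (c, h₁) - a (c, h₂)) + m₁ * (b (c, h₁) - b (c, h₂))) =
        (u (c, h₁) + δ * (a (c, h₁) + m₁ * b (c, h₁)) -
          (u (c, h₂) + δ * (a (c, h₂) + m₂ * b (c, h₂))) -
          b (c, h₂) * ((h₁ + m₁ * δ) - (h₂ + m₂ * δ))) -
        (u (c, h₁) - u (c, h₂) - b (c, h₂) * (h₁ - h₂)) := by ring
    rw [le_div_iff₀ hδ]
    have e4 : |(a (c, h₁) - a (c, h₂)) + m₁ * (b (c, h₁) - b (c, h₂))| * δ =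
        |δ * ((a (c, h₁) - a (c, h₂)) + m₁ * (b (c, h₁) - b (c, h₂)))| := by
      rw [abs_mul, abs_of_pos hδ, mul_comm]
    rw [e4, e3]
    refine (abs_sub _ _).trans ?_
    linarith

lemma volume_parallelogram_le (a₀ b₀ m v η : ℝ) :
    volume {p : ℝ × ℝ | |p.2 - b₀| ≤ η ∧ |(p.1 - a₀) + m * (p.2 - b₀)| ≤ v} ≤
      ENNReal.ofReal (2 * v) * ENNReal.ofReal (2 * η) := by
  set S : Set (ℝ × ℝ) := {p : ℝ × ℝ | |p.2 - b₀| ≤ η ∧ |(p.1 - a₀) + m * (p.2 - b₀)| ≤ v} with hS
  have hSc : IsClosed S :=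
    (isClosed_le (by fun_prop : Continuous fun p : ℝ × ℝ => |p.2 - b₀|) continuous_const).inter
      (isClosed_le (by fun_prop : Continuous fun p : ℝ × ℝ =>
        |(p.1 - a₀) + m * (p.2 - b₀)|) continuous_const)
  rw [Measure.volume_eq_prod, Measure.prod_apply_symm hSc.measurableSet]
  have hle : ∀ y : ℝ, volume ((fun x => (x, y)) ⁻¹' S) ≤
      (Icc (b₀ - η) (b₀ + η)).indicator (fun _ => ENNReal.ofReal (2 * v)) y := by
    intro y
    by_cases hy : y ∈ Icc (b₀ - η) (b₀ + η)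
    · rw [indicator_of_mem hy]
      have hsub : (fun x => (x, y)) ⁻¹' S ⊆
          Icc (a₀ - m * (y - b₀) - v) (a₀ - m * (y - b₀) + v) := by
        intro x hx
        have h2 : |(x - a₀) + m * (y - b₀)| ≤ v := hx.2
        rw [abs_le] at h2
        constructor <;> linarith [h2.1, h2.2]
      refine (measure_mono hsub).trans ?_
      rw [Real.volume_Icc]
      apply le_of_eq
      congr 1
      ring
    · rw [indicator_of_notMem hy]
      have hempty : (fun x => (x, y)) ⁻¹' S = ∅ := by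
        ext x
        simp only [mem_preimage, mem_empty_iff_false, iff_false]
        intro hx
        apply hy
        have h2 : |y - b₀| ≤ η := hx.1
        rw [abs_le] at h2
        constructor <;> linarith [h2.1, h2.2]
      rw [hempty, measure_empty]
  refine (lintegral_mono hle).trans ?_
  rw [lintegral_indicator_const measurableSet_Icc, Real.volume_Icc]
  apply le_of_eq
  congr 2
  ring

/-- the points of the vertical line `x = c` through which there passes a good segment -/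
def goodSet (D : Set (ℝ × ℝ)) (a b : ℝ × ℝ → ℝ) (c δ α β : ℝ) : Set (ℝ × ℝ) :=
  {z | z.1 = c ∧ z.2 ∈ Icc α β ∧ ∃ m, |m| ≤ 1 ∧ Seg D a b c z.2 m δ}

lemma strip_bound (hG : GradData D u a b) {c δ α β : ℝ} (hδ : 0 < δ)
    (hrect : Icc (c - δ) (c + δ) ×ˢ Icc (α - δ) (β + δ) ⊆ D) {η : ℝ} (hη : 0 < η) :
    volume ((fun z => (a z, b z)) '' goodSet D a b c δ α β) ≤
      ENNReal.ofReal (16 * (β - α) * η ^ 2 / δ) := by
  by_cases hαβ : β < α
  · have : goodSet D a b c δ α β = ∅ := by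
      ext z
      simp only [goodSet, mem_empty_iff_false, iff_false]
      rintro ⟨_, h2, _⟩
      exact absurd (h2.1.trans h2.2) (not_le.mpr hαβ)
    rw [this, image_empty, measure_empty]
    exact zero_le
  push Not at hαβ
  have hcomp : IsCompact (Icc (c - δ) (c + δ) ×ˢ Icc (α - δ) (β + δ)) :=
    isCompact_Icc.prod isCompact_Icc
  have huc := hcomp.uniformContinuousOn_of_continuous (hG.cont_b.mono hrect)
  rw [Metric.uniformContinuousOn_iff] at huc
  obtain ⟨τ, hτ, hunif⟩ := huc η hη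
  -- number of pieces
  obtain ⟨N, hN⟩ := exists_nat_gt (2 * (β - α) / τ)
  have hN0 : (0 : ℝ) < N := lt_of_le_of_lt (div_nonneg (by linarith) hτ.le) hN
  set d := (β - α) / N with hd
  have hd0 : 0 ≤ d := div_nonneg (by linarith) hN0.le
  have hdτ : 2 * d < τ := by
    rw [div_lt_iff₀ hτ] at hN
    rw [hd, ← mul_div_assoc, div_lt_iff₀ hN0]
    linarith [mul_comm τ (N : ℝ)]
  -- the pieces
  let I : ℕ → Set ℝ := fun j => Icc (α + j * d) (α + (j + 1) * d)
  have hcover : goodSet D a b c δ α β ⊆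
      ⋃ j ∈ Finset.range N, (goodSet D a b c δ α β ∩ {z | z.2 ∈ I j}) := by
    intro z hz
    obtain ⟨_, hz2, _⟩ := id hz
    have hNpos : 0 < N := by exact_mod_cast hN0
    by_cases hd00 : d = 0
    · have hβα : β = α := by
        rw [hd, div_eq_zero_iff] at hd00
        rcases hd00 with h | h
        · linarith
        · exact absurd h hN0.ne'
      simp only [mem_iUnion]
      refine ⟨0, Finset.mem_range.mpr hNpos, hz, ?_⟩
      show z.2 ∈ Icc (α + ((0 : ℕ) : ℝ) * d) (α + (((0 : ℕ) : ℝ) + 1) * d)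
      rw [hd00]
      simp only [mul_zero, add_zero]
      exact ⟨hz2.1, by linarith [hz2.2]⟩
    · have hdpos : 0 < d := lt_of_le_of_ne hd0 (Ne.symm hd00)
      have hNd : (N : ℝ) * d = β - α := by rw [hd]; field_simp
      simp only [mem_iUnion]
      by_cases hend : z.2 = β
      · refine ⟨N - 1, Finset.mem_range.mpr (by omega), hz, ?_⟩
        show z.2 ∈ Icc (α + ((N - 1 : ℕ) : ℝ) * d) (α + (((N - 1 : ℕ) : ℝ) + 1) * d)
        rw [Nat.cast_sub (by omega : 1 ≤ N), hend]
        constructor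
        · push_cast
          nlinarith
        · push_cast
          nlinarith
      · have hlt : z.2 < β := lt_of_le_of_ne hz2.2 hend
        have hq0 : 0 ≤ (z.2 - α) / d := div_nonneg (by linarith [hz2.1]) hdpos.le
        refine ⟨⌊(z.2 - α) / d⌋₊, Finset.mem_range.mpr ?_, hz, ?_⟩
        · rw [Nat.floor_lt hq0, div_lt_iff₀ hdpos, hNd]
          linarith
        · have h1 := Nat.floor_le hq0
          have h2 := Nat.lt_floor_add_one ((z.2 - α) / d)
          rw [le_div_iff₀ hdpos] at h1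
          rw [div_lt_iff₀ hdpos] at h2
          constructor <;> linarith
  -- each piece
  have hpiece : ∀ j ∈ Finset.range N, volume ((fun z => (a z, b z)) ''
      (goodSet D a b c δ α β ∩ {z | z.2 ∈ I j})) ≤ ENNReal.ofReal (16 * d * η ^ 2 / δ) := by
    intro j _
    by_cases hne : (goodSet D a b c δ α β ∩ {z | z.2 ∈ I j}).Nonempty
    · obtain ⟨⟨c₀, h₀⟩, ⟨hc₀, hh₀, m₀, hm₀, hS₀⟩, hI₀⟩ := hne
      simp only at hc₀ hh₀ hS₀
      subst hc₀
      have hsub : (fun z => (a z, b z)) '' (goodSet D a b c₀ δ α β ∩ {z | z.2 ∈ I j}) ⊆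
          {p : ℝ × ℝ | |p.2 - b (c₀, h₀)| ≤ η ∧
            |(p.1 - a (c₀, h₀)) + m₀ * (p.2 - b (c₀, h₀))| ≤ 4 * d * η / δ} := by
        rintro _ ⟨⟨c₁, h₁⟩, ⟨⟨hc₁, hh₁, m₁, hm₁, hS₁⟩, hI₁⟩, rfl⟩
        simp only at hc₁ hh₁ hS₁
        subst hc₁
        have hI₀' : h₀ ∈ Icc (α + j * d) (α + (j + 1) * d) := hI₀
        have hI₁' : h₁ ∈ Icc (α + j * d) (α + (j + 1) * d) := hI₁
        have hdist : |h₀ - h₁| ≤ d := by
          rw [abs_le]
          constructor <;> linarith [hI₀'.1, hI₀'.2, hI₁'.1, hI₁'.2]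
        have hin : ∀ (h m : ℝ), h ∈ Icc α β → |m| ≤ 1 → ∀ s ∈ Icc (-δ) δ,
            h + m * s ∈ Icc (α - δ) (β + δ) := by
          intro h m hh hm s hs
          have h1 : |m * s| ≤ δ := by
            rw [abs_mul]
            calc |m| * |s| ≤ 1 * δ :=
                  mul_le_mul hm (abs_le.mpr hs) (abs_nonneg _) zero_le_one
              _ = δ := one_mul _
          rw [abs_le] at h1
          constructor
          · linarith [hh.1, h1.1]
          · linarith [hh.2, h1.2]
        have hcs : ∀ s ∈ Icc (-δ) δ, c₁ + s ∈ Icc (c₁ - δ) (c₁ + δ) := by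
          intro s hs
          constructor <;> linarith [hs.1, hs.2]
        have hc1 : c₁ ∈ Icc (c₁ - δ) (c₁ + δ) := by constructor <;> linarith
        have hicc : ∀ h ∈ Icc α β, h ∈ Icc (α - δ) (β + δ) := by
          intro h hh
          constructor <;> linarith [hh.1, hh.2]
        refine ⟨?_, ?_⟩
        · have h2 := hunif (c₁, h₁) ⟨hc1, hicc h₁ hh₁⟩ (c₁, h₀) ⟨hc1, hicc h₀ hh₀⟩ (by
            rw [Prod.dist_eq, dist_self, Real.dist_eq, abs_sub_comm]
            rw [max_eq_right (abs_nonneg _)]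
            linarith)
          rw [Real.dist_eq] at h2
          exact h2.le
        · have h2 := core_estimate hG hδ hη.le hS₀ hS₁ (by
              intro s hs y hy
              apply hrect
              refine ⟨hcs s hs, ?_⟩
              exact (convex_Icc _ _).ordConnected.uIcc_subset (hin h₀ m₀ hh₀ hm₀ s hs)
                (hin h₁ m₁ hh₁ hm₁ s hs) hy) (by
              intro s hs y hy hyd
              obtain ⟨_, _, h4⟩ := hS₁ s hs
              rw [← h4]
              have h3 := hunif (c₁ + s, y) ⟨hcs s hs,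
                (convex_Icc _ _).ordConnected.uIcc_subset (hin h₀ m₀ hh₀ hm₀ s hs)
                  (hin h₁ m₁ hh₁ hm₁ s hs) hy⟩ (c₁ + s, h₁ + m₁ * s)
                ⟨hcs s hs, hin h₁ m₁ hh₁ hm₁ s hs⟩ (by
                  rw [Prod.dist_eq, dist_self, Real.dist_eq, max_eq_right (abs_nonneg _)]
                  calc |y - (h₁ + m₁ * s)| ≤ 2 * |h₀ - h₁| := hyd
                    _ ≤ 2 * d := by linarith
                    _ < τ := hdτ)
              rw [Real.dist_eq] at h3
              exact h3.le)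
          have h5 : |(a (c₁, h₁) - a (c₁, h₀)) + m₀ * (b (c₁, h₁) - b (c₁, h₀))| =
              |(a (c₁, h₀) - a (c₁, h₁)) + m₀ * (b (c₁, h₀) - b (c₁, h₁))| := by
            rw [← abs_neg]
            congr 1
            ring
          show |(a (c₁, h₁) - a (c₁, h₀)) + m₀ * (b (c₁, h₁) - b (c₁, h₀))| ≤ 4 * d * η / δ
          rw [h5]
          refine h2.trans ?_
          apply div_le_div_of_nonneg_right _ hδ.le
          apply mul_le_mul_of_nonneg_right _ hη.le
          linarith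
      refine (measure_mono hsub).trans ((volume_parallelogram_le _ _ _ _ _).trans ?_)
      rw [← ENNReal.ofReal_mul (by positivity)]
      apply le_of_eq
      congr 1
      ring
    · rw [not_nonempty_iff_eq_empty] at hne
      rw [hne, image_empty, measure_empty]
      exact zero_le
  calc volume ((fun z => (a z, b z)) '' goodSet D a b c δ α β)
      ≤ volume (⋃ j ∈ Finset.range N, (fun z => (a z, b z)) ''
          (goodSet D a b c δ α β ∩ {z | z.2 ∈ I j})) := by
        apply measure_mono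
        refine (image_mono hcover).trans ?_
        rw [image_iUnion₂]
    _ ≤ ∑ j ∈ Finset.range N, volume ((fun z => (a z, b z)) ''
          (goodSet D a b c δ α β ∩ {z | z.2 ∈ I j})) := measure_biUnion_finset_le _ _
    _ ≤ ∑ j ∈ Finset.range N, ENNReal.ofReal (16 * d * η ^ 2 / δ) := Finset.sum_le_sum hpiece
    _ = ENNReal.ofReal (16 * (β - α) * η ^ 2 / δ) := by
        rw [Finset.sum_const, Finset.card_range, nsmul_eq_mul, ← ENNReal.ofReal_natCast,
          ← ENNReal.ofReal_mul hN0.le]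
        congr 1
        rw [hd]
        field_simp

lemma strip_null (hG : GradData D u a b) {c δ α β : ℝ} (hδ : 0 < δ)
    (hrect : Icc (c - δ) (c + δ) ×ˢ Icc (α - δ) (β + δ) ⊆ D) :
    volume ((fun z => (a z, b z)) '' goodSet D a b c δ α β) = 0 := by
  have hlim : Tendsto (fun η : ℝ => ENNReal.ofReal (16 * (β - α) * η ^ 2 / δ)) (𝓝[>] 0) (𝓝 0) := by
    have h1 : Tendsto (fun η : ℝ => 16 * (β - α) * η ^ 2 / δ) (𝓝[>] 0) (𝓝 0) := by
      have h2 : Continuous (fun η : ℝ => 16 * (β - α) * η ^ 2 / δ) := by fun_prop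
      have h3 := h2.tendsto 0
      simp only [ne_eq, OfNat.ofNat_ne_zero, not_false_eq_true, zero_pow, mul_zero,
        zero_div] at h3
      exact h3.mono_left nhdsWithin_le_nhds
    have h4 := (ENNReal.continuous_ofReal.tendsto 0).comp h1
    rw [ENNReal.ofReal_zero] at h4
    exact h4
  have hle : volume ((fun z => (a z, b z)) '' goodSet D a b c δ α β) ≤ 0 := by
    refine ge_of_tendsto hlim ?_
    filter_upwards [self_mem_nhdsWithin] with η hη
    exact strip_bound hG hδ hrect hη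
  exact le_antisymm hle zero_le

/-- the points through which there passes a good segment of slope at most one -/
def class1 (D : Set (ℝ × ℝ)) (a b : ℝ × ℝ → ℝ) : Set (ℝ × ℝ) :=
  {z ∈ D | ∃ m δ : ℝ, |m| ≤ 1 ∧ 0 < δ ∧ Seg D a b z.1 z.2 m δ}

lemma class1_null (hG : GradData D u a b) :
    volume ((fun z => (a z, b z)) '' class1 D a b) = 0 := by
  let T : Type := {q : ℚ × ℚ × ℚ × ℚ // (0 : ℝ) < q.2.1 ∧
    Icc ((q.1 : ℝ) - q.2.1) (q.1 + q.2.1) ×ˢ
      Icc ((q.2.2.1 : ℝ) - q.2.1) (q.2.2.2 + q.2.1) ⊆ D}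
  have hsub : (fun z => (a z, b z)) '' class1 D a b ⊆
      ⋃ q : T, (fun z => (a z, b z)) '' goodSet D a b q.1.1 q.1.2.1 q.1.2.2.1 q.1.2.2.2 := by
    rintro _ ⟨⟨x, y⟩, ⟨hzD, m, δ₀, hm, hδ₀, hS⟩, rfl⟩
    simp only at hS
    obtain ⟨r, hr, hball⟩ := Metric.isOpen_iff.mp hG.open_dom (x, y) hzD
    obtain ⟨δ, hδ1, hδ2⟩ := exists_rat_btwn (show (0 : ℝ) < min (r / 4) (δ₀ / 2) by positivity)
    have hδr : (δ : ℝ) < r / 4 := hδ2.trans_le (min_le_left _ _)
    have hδδ : (δ : ℝ) < δ₀ / 2 := hδ2.trans_le (min_le_right _ _)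
    obtain ⟨c, hc1, hc2⟩ := exists_rat_btwn (show x - (δ : ℝ) < x by linarith)
    obtain ⟨α, hα1, hα2⟩ := exists_rat_btwn (show y - 2 * (δ : ℝ) < y - δ by linarith)
    obtain ⟨β, hβ1, hβ2⟩ := exists_rat_btwn (show y + (δ : ℝ) < y + 2 * δ by linarith)
    have hq : (0 : ℝ) < δ ∧ Icc ((c : ℝ) - δ) (c + δ) ×ˢ Icc ((α : ℝ) - δ) (β + δ) ⊆ D := by
      refine ⟨hδ1, ?_⟩
      rintro ⟨x', y'⟩ ⟨hx', hy'⟩
      apply hball
      rw [Metric.mem_ball, Prod.dist_eq, max_lt_iff, Real.dist_eq, Real.dist_eq]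
      simp only at hx' hy' ⊢
      constructor
      · rw [abs_lt]
        constructor <;> linarith [hx'.1, hx'.2]
      · rw [abs_lt]
        constructor <;> linarith [hy'.1, hy'.2]
    refine mem_iUnion.mpr ⟨⟨(c, δ, α, β), hq⟩, ?_⟩
    have hcx : c - x ∈ Icc (-δ₀) δ₀ := by constructor <;> linarith
    refine ⟨(c, y + m * (c - x)), ⟨rfl, ?_, m, hm, ?_⟩, ?_⟩
    · have h1 : |m * (c - x)| ≤ δ := by
        rw [abs_mul]
        calc |m| * |c - x| ≤ 1 * δ := by
              refine mul_le_mul hm ?_ (abs_nonneg _) zero_le_one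
              rw [abs_le]
              constructor <;> linarith
          _ = δ := one_mul _
      rw [abs_le] at h1
      constructor
      · show (α : ℝ) ≤ y + m * (c - x)
        linarith [h1.1]
      · show y + m * (c - x) ≤ (β : ℝ)
        linarith [h1.2]
    · intro s hs
      have hs' : c - x + s ∈ Icc (-δ₀) δ₀ := by
        constructor
        · have := hs.1
          simp only at this
          linarith
        · have := hs.2
          simp only at this
          linarith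
      obtain ⟨h1, h2, h3⟩ := hS _ hs'
      obtain ⟨_, h5, h6⟩ := hS _ hcx
      have e1 : x + (c - x + s) = c + s := by ring
      have e2 : y + m * (c - x + s) = y + m * (c - x) + m * s := by ring
      have e3 : x + (c - x) = c := by ring
      rw [e1, e2] at h1 h2 h3
      rw [e3] at h5 h6
      exact ⟨h1, h2.trans h5.symm, h3.trans h6.symm⟩
    · obtain ⟨_, h5, h6⟩ := hS _ hcx
      have e3 : x + (c - x) = c := by ring
      rw [e3] at h5 h6
      simp only
      rw [h5, h6]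
  have hcount : Countable T := inferInstance
  exact measure_mono_null hsub (measure_iUnion_null fun q => strip_null hG q.2.1 q.2.2)

lemma GradData.swap (hG : GradData D u a b) :
    GradData (Prod.swap ⁻¹' D) (u ∘ Prod.swap) (b ∘ Prod.swap) (a ∘ Prod.swap) where
  open_dom := hG.open_dom.preimage continuous_swap
  cont_a := hG.cont_b.comp continuous_swap.continuousOn (fun _ hz => hz)
  cont_b := hG.cont_a.comp continuous_swap.continuousOn (fun _ hz => hz)
  deriv := by
    intro z hz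
    have h1 := hG.deriv (Prod.swap z) hz
    have h2 : HasFDerivAt (Prod.swap : ℝ × ℝ → ℝ × ℝ)
        ((ContinuousLinearMap.snd ℝ ℝ ℝ).prod (ContinuousLinearMap.fst ℝ ℝ ℝ)) z :=
      ((ContinuousLinearMap.snd ℝ ℝ ℝ).prod (ContinuousLinearMap.fst ℝ ℝ ℝ)).hasFDerivAt
    have h3 := h1.comp z h2
    refine h3.congr_fderiv ?_
    ext <;> simp

/-- **Plane theorem.** -/
theorem plane_null (hG : GradData D u a b)
    (hseg : ∀ z ∈ D, ∃ e : ℝ × ℝ, e ≠ 0 ∧ ∃ ε > 0, ∀ s : ℝ, |s| < ε →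
      z + s • e ∈ D ∧ a (z + s • e) = a z ∧ b (z + s • e) = b z) :
    volume ((fun z => (a z, b z)) '' D) = 0 := by
  have h1 := class1_null hG
  have h2 := class1_null hG.swap
  have h3 : volume (Prod.swap ⁻¹' ((fun z => ((b ∘ Prod.swap) z, (a ∘ Prod.swap) z)) ''
      class1 (Prod.swap ⁻¹' D) (b ∘ Prod.swap) (a ∘ Prod.swap))) = 0 := by
    have hmp : MeasurePreserving (Prod.swap : ℝ × ℝ → ℝ × ℝ) volume volume :=
      Measure.measurePreserving_swap
    exact hmp.quasiMeasurePreserving.preimage_null h2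
  refine measure_mono_null ?_ (measure_union_null h1 h3)
  rintro _ ⟨z, hz, rfl⟩
  obtain ⟨e, he, ε, hε, hs⟩ := hseg z hz
  by_cases hcase : |e.2| ≤ |e.1|
  · left
    have he1 : e.1 ≠ 0 := by
      intro h0
      rw [h0, abs_zero] at hcase
      have h4 : e.2 = 0 := abs_nonpos_iff.mp hcase
      exact he (Prod.ext h0 h4)
    refine ⟨z, ⟨hz, e.2 / e.1, |e.1| * ε / 2, ?_, ?_, ?_⟩, rfl⟩
    · rw [abs_div]
      exact div_le_one_of_le₀ hcase (abs_nonneg _)
    · have := abs_pos.mpr he1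
      positivity
    · intro s hs'
      have h5 : |s / e.1| < ε := by
        rw [abs_div, div_lt_iff₀ (abs_pos.mpr he1)]
        have h6 : |s| ≤ |e.1| * ε / 2 := abs_le.mpr hs'
        have h7 : 0 < |e.1| * ε := mul_pos (abs_pos.mpr he1) hε
        linarith [mul_comm ε |e.1|]
      have h8 := hs _ h5
      have h9 : z + (s / e.1) • e = (z.1 + s, z.2 + e.2 / e.1 * s) := by
        ext
        · simp only [Prod.fst_add, Prod.smul_fst, smul_eq_mul]
          field_simp
        · simp only [Prod.snd_add, Prod.smul_snd, smul_eq_mul]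
          ring
      rw [h9] at h8
      exact h8
  · right
    push Not at hcase
    have he2 : e.2 ≠ 0 := by
      intro h0
      rw [h0, abs_zero] at hcase
      exact absurd hcase (not_lt.mpr (abs_nonneg _))
    refine ⟨z.swap, ⟨?_, e.1 / e.2, |e.2| * ε / 2, ?_, ?_, ?_⟩, ?_⟩
    · simpa using hz
    · rw [abs_div]
      exact div_le_one_of_le₀ hcase.le (abs_nonneg _)
    · have := abs_pos.mpr he2
      positivity
    · intro s hs'
      have h5 : |s / e.2| < ε := by
        rw [abs_div, div_lt_iff₀ (abs_pos.mpr he2)]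
        have h6 : |s| ≤ |e.2| * ε / 2 := abs_le.mpr hs'
        have h7 : 0 < |e.2| * ε := mul_pos (abs_pos.mpr he2) hε
        linarith [mul_comm ε |e.2|]
      have h8 := hs _ h5
      have h9 : z + (s / e.2) • e = (z.1 + e.1 / e.2 * s, z.2 + s) := by
        ext
        · simp only [Prod.fst_add, Prod.smul_fst, smul_eq_mul]
          ring
        · simp only [Prod.snd_add, Prod.smul_snd, smul_eq_mul]
          field_simp
      rw [h9] at h8
      refine ⟨?_, ?_, ?_⟩
      · simpa using h8.1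
      · simpa using h8.2.2
      · simpa using h8.2.1
    · simp

end Pool.Agent.Lib.MP_81590e_gt
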