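import Mathlib
import Pool.Agent.Lib.MP_81590e_gt.Plane
import Pool.Agent.Lib.MP_81590e_gt.Cone

/-!
# Local graph representation of a `C^1` immersion of the plane in space
-/

namespace Pool.Agent.Lib.MP_81590e_gt

open MeasureTheory Set Filter Topology
open scoped RealInnerProductSpace

abbrev E2 : Type := EuclideanSpace ℝ (Fin 2)

/-- linear algebra: coordinates adapted to an injective linear map `E2 → E3` -/
lemma exists_coordinates (A : E2 →L[ℝ] E3) (hA : Function.Injective A) :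
    ∃ (ρ : E3 →L[ℝ] ℝ × ℝ) (e : E2 ≃L[ℝ] ℝ × ℝ) (n₀ : E3), ρ.comp A = (e : E2 →L[ℝ] ℝ × ℝ) ∧
      n₀ ≠ 0 ∧ ρ n₀ = 0 ∧ ∀ v, ρ v = 0 → ⟪n₀, v⟫ = 0 → v = 0 := by
  have hdim : Module.finrank ℝ E2 = Module.finrank ℝ (ℝ × ℝ) := by simp
  let e : E2 ≃L[ℝ] ℝ × ℝ := ContinuousLinearEquiv.ofFinrankEq hdim
  obtain ⟨g, hg⟩ := LinearMap.exists_leftInverse_of_injective (A : E2 →ₗ[ℝ] E3)
    (LinearMap.ker_eq_bot.mpr hA)
  let ρ : E3 →L[ℝ] ℝ × ℝ := (e : E2 →L[ℝ] ℝ × ℝ).comp (LinearMap.toContinuousLinearMap g)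
  have hgA : ∀ x, g (A x) = x := fun x => by
    have := LinearMap.congr_fun hg x
    simpa using this
  have hρA : ∀ x, ρ (A x) = e x := by
    intro x
    show e (g (A x)) = e x
    rw [hgA]
  have hsurj : Function.Surjective ρ := by
    intro z
    exact ⟨A (e.symm z), by rw [hρA]; simp⟩
  have hker : Module.finrank ℝ (LinearMap.ker (ρ : E3 →ₗ[ℝ] ℝ × ℝ)) = 1 := by
    have h1 := LinearMap.finrank_range_add_finrank_ker (ρ : E3 →ₗ[ℝ] ℝ × ℝ)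
    have h2 : LinearMap.range (ρ : E3 →ₗ[ℝ] ℝ × ℝ) = ⊤ := LinearMap.range_eq_top.mpr hsurj
    rw [h2, finrank_top] at h1
    simp at h1
    omega
  obtain ⟨n₀, hn₀⟩ : ∃ n₀ : LinearMap.ker (ρ : E3 →ₗ[ℝ] ℝ × ℝ), n₀ ≠ 0 := by
    have : Nontrivial (LinearMap.ker (ρ : E3 →ₗ[ℝ] ℝ × ℝ)) :=
      Module.nontrivial_of_finrank_pos (R := ℝ) (by rw [hker]; exact one_pos)
    exact exists_ne 0
  refine ⟨ρ, e, n₀.1, ?_, ?_, ?_, ?_⟩
  · ext1 x
    exact hρA x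
  · intro h
    exact hn₀ (Subtype.ext h)
  · exact n₀.2
  · intro v hv hin
    obtain ⟨c, hc⟩ := (finrank_eq_one_iff_of_nonzero' n₀ hn₀).mp hker ⟨v, hv⟩
    have hc' : c • n₀.1 = v := congrArg Subtype.val hc
    rw [← hc', inner_smul_right] at hin
    rcases mul_eq_zero.mp hin with h | h
    · rw [← hc', h, zero_smul]
    · exfalso
      exact hn₀ (Subtype.ext (inner_self_eq_zero.mp h))

/-- the local graph data -/
structure LocalGraph (f : E2 → E3) (Ω : Set E2) (x₀ : E2) where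
  ρ : E3 →L[ℝ] ℝ × ℝ
  n₀ : E3
  h : OpenPartialHomeomorph E2 (ℝ × ℝ)
  D : Set (ℝ × ℝ)
  a : ℝ × ℝ → ℝ
  b : ℝ × ℝ → ℝ
  n₀_ne : n₀ ≠ 0
  ρ_n₀ : ρ n₀ = 0
  inj : ∀ v, ρ v = 0 → ⟪n₀, v⟫ = 0 → v = 0
  h_eq : ∀ x, h x = ρ (f x)
  x₀_mem : x₀ ∈ h.source
  D_open : IsOpen D
  D_sub : D ⊆ h.target
  x₀_D : h x₀ ∈ D
  D_Ω : ∀ y ∈ D, h.symm y ∈ Ω
  grad : GradData D (fun y => ⟪n₀, f (h.symm y)⟫) a b
  tangent : ∀ y ∈ D, ∀ w : E3, (∃ z, fderiv ℝ f (h.symm y) z = w) ↔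
    ⟪n₀, w⟫ = a y * (ρ w).1 + b y * (ρ w).2

lemma exists_localGraph {f : E2 → E3} {Ω : Set E2} (hΩ : IsOpen Ω) (hf : ContDiffOn ℝ 1 f Ω)
    {x₀ : E2} (hx₀ : x₀ ∈ Ω) (hinj : Function.Injective (fderiv ℝ f x₀)) :
    Nonempty (LocalGraph f Ω x₀) := by
  obtain ⟨ρ, e, n₀, hρA, hn₀, hρn₀, hsep⟩ := exists_coordinates (fderiv ℝ f x₀) hinj
  have hfat : ∀ x ∈ Ω, ContDiffAt ℝ 1 f x := fun x hx => hf.contDiffAt (hΩ.mem_nhds hx)
  have hρf : ContDiffAt ℝ 1 (fun x => ρ (f x)) x₀ := ρ.contDiff.contDiffAt.comp x₀ (hfat x₀ hx₀)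
  have hρf' : HasFDerivAt (fun x => ρ (f x)) (e : E2 →L[ℝ] ℝ × ℝ) x₀ := by
    rw [← hρA]
    exact ρ.hasFDerivAt.comp x₀ ((hfat x₀ hx₀).differentiableAt one_ne_zero).hasFDerivAt
  let h : OpenPartialHomeomorph E2 (ℝ × ℝ) :=
    ContDiffAt.toOpenPartialHomeomorph (fun x => ρ (f x)) hρf hρf' one_ne_zero
  have hcoe : ∀ x, h x = ρ (f x) := fun x => by
    rw [show (h : E2 → ℝ × ℝ) = fun x => ρ (f x) from
      ContDiffAt.toOpenPartialHomeomorph_coe hρf hρf' one_ne_zero]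
  have hx₀s : x₀ ∈ h.source := ContDiffAt.mem_toOpenPartialHomeomorph_source hρf hρf' one_ne_zero
  have hsymm0 : ContDiffAt ℝ 1 h.symm (h x₀) := by
    rw [hcoe]
    exact hρf.to_localInverse hρf' one_ne_zero
  let C : Set (ℝ × ℝ) := {y | ContDiffAt ℝ 1 h.symm y}
  have hC : IsOpen C := by
    rw [isOpen_iff_eventually]
    intro y hy
    have hy' : ContDiffAt ℝ 1 h.symm y := hy
    exact hy'.eventually (by simp)
  let D : Set (ℝ × ℝ) := (h.target ∩ h.symm ⁻¹' Ω) ∩ C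
  have hD : IsOpen D := (h.isOpen_inter_preimage_symm hΩ).inter hC
  have hx₀D : h x₀ ∈ D := by
    refine ⟨⟨h.map_source hx₀s, ?_⟩, hsymm0⟩
    show h.symm (h x₀) ∈ Ω
    rw [h.left_inv hx₀s]
    exact hx₀
  let u : ℝ × ℝ → ℝ := fun y => ⟪n₀, f (h.symm y)⟫
  have hfh : ∀ y ∈ D, ContDiffAt ℝ 1 (fun y => f (h.symm y)) y := fun y hy =>
    (hfat _ hy.1.2).comp y hy.2
  have hu : ∀ y ∈ D, ContDiffAt ℝ 1 u y := fun y hy =>
    (innerSL ℝ n₀).contDiff.contDiffAt.comp y (hfh y hy)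
  have huOn : ContDiffOn ℝ 1 u D := fun y hy => (hu y hy).contDiffWithinAt
  have hfd := huOn.continuousOn_fderiv_of_isOpen hD le_rfl
  let a : ℝ × ℝ → ℝ := fun y => fderiv ℝ u y (1, 0)
  let b : ℝ × ℝ → ℝ := fun y => fderiv ℝ u y (0, 1)
  have hab : ∀ y, fderiv ℝ u y = (a y) • ContinuousLinearMap.fst ℝ ℝ ℝ +
      (b y) • ContinuousLinearMap.snd ℝ ℝ ℝ := by
    intro y
    ext <;> simp [a, b]
  have hgrad : GradData D u a b := by
    refine ⟨hD, ?_, ?_, ?_⟩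
    · exact hfd.clm_apply continuousOn_const
    · exact hfd.clm_apply continuousOn_const
    · intro y hy
      rw [← hab y]
      exact ((hu y hy).differentiableAt one_ne_zero).hasFDerivAt
  refine ⟨⟨ρ, n₀, h, D, a, b, hn₀, hρn₀, hsep, hcoe, hx₀s, hD, fun y hy => hy.1.1, hx₀D,
    fun y hy => hy.1.2, hgrad, ?_⟩⟩
  intro y hy w
  have hyC : ContDiffAt ℝ 1 h.symm y := hy.2
  -- the derivative of the parametrisation
  have hQ : HasFDerivAt (fun y => f (h.symm y))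
      ((fderiv ℝ f (h.symm y)).comp (fderiv ℝ h.symm y)) y :=
    ((hfat _ hy.1.2).differentiableAt one_ne_zero).hasFDerivAt.comp y
      (hyC.differentiableAt one_ne_zero).hasFDerivAt
  set κ' := fderiv ℝ h.symm y with hκ'
  set Q := (fderiv ℝ f (h.symm y)).comp κ' with hQdef
  have hρQ : ρ.comp Q = ContinuousLinearMap.id ℝ (ℝ × ℝ) := by
    have h1 : HasFDerivAt (fun y => ρ (f (h.symm y))) (ρ.comp Q) y := ρ.hasFDerivAt.comp y hQ
    have h2 : (fun y => ρ (f (h.symm y))) =ᶠ[𝓝 y] id := by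
      filter_upwards [hD.mem_nhds hy] with y' hy'
      rw [← hcoe, h.right_inv hy'.1.1]
      rfl
    exact (h2.hasFDerivAt_iff.mp h1).unique (hasFDerivAt_id y)
  have hρQ' : ∀ z, ρ (Q z) = z := fun z => by
    have := congrArg (fun L : (ℝ × ℝ) →L[ℝ] (ℝ × ℝ) => L z) hρQ
    simpa using this
  have hζQ : ∀ z : ℝ × ℝ, ⟪n₀, Q z⟫ = a y * z.1 + b y * z.2 := by
    intro z
    have h1 : HasFDerivAt u ((innerSL ℝ n₀).comp Q) y := (innerSL ℝ n₀).hasFDerivAt.comp y hQ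
    have h2 := h1.fderiv
    rw [hab y] at h2
    have h3 := congrArg (fun L : (ℝ × ℝ) →L[ℝ] ℝ => L z) h2
    simp only [add_apply, smul_apply, smul_eq_mul,
      ContinuousLinearMap.coe_fst', ContinuousLinearMap.coe_snd', ContinuousLinearMap.comp_apply,
      innerSL_apply_apply] at h3
    exact h3.symm
  have hκsurj : Function.Surjective κ' := by
    have hdim : Module.finrank ℝ (ℝ × ℝ) = Module.finrank ℝ E2 := by simp
    have hκinj : Function.Injective (κ' : (ℝ × ℝ) →ₗ[ℝ] E2) := by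
      intro z z' hzz
      have h1 : Q z = Q z' := by
        show fderiv ℝ f (h.symm y) (κ' z) = fderiv ℝ f (h.symm y) (κ' z')
        rw [show κ' z = κ' z' from hzz]
      rw [← hρQ' z, ← hρQ' z', h1]
    exact (LinearMap.injective_iff_surjective_of_finrank_eq_finrank hdim).mp hκinj
  constructor
  · rintro ⟨z, rfl⟩
    obtain ⟨z', rfl⟩ := hκsurj z
    have h1 : fderiv ℝ f (h.symm y) (κ' z') = Q z' := rfl
    rw [h1, hζQ z', hρQ' z']
  · intro hw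
    have h1 : w - Q (ρ w) = 0 := by
      apply hsep
      · rw [map_sub, hρQ', sub_self]
      · rw [inner_sub_right, hζQ, hw, sub_self]
    exact ⟨κ' (ρ w), by
      show Q (ρ w) = w
      exact (sub_eq_zero.mp h1).symm⟩

end Pool.Agent.Lib.MP_81590e_gt
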