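import Mathlib

/-!
# Definitions: immersed `C^1` surfaces, torses, class BECP

The definitions are written for a manifold `M` with model `I` immersed in an inner product space
`E`; in the result they are used for 2-manifolds (`I = 𝓡 2`) and `E = EuclideanSpace ℝ (Fin 3)`.
Points of the surface are points of `M`.
-/

namespace Pool.Agent.Lib.MP_81590e_gt

open MeasureTheory Set Filter Topology
open scoped Manifold ContDiff RealInnerProductSpace

universe u₁ u₂ u₃ u₄

variable {V : Type u₁} [NormedAddCommGroup V] [NormedSpace ℝ V] {H : Type u₂} [TopologicalSpace H]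
  (I : ModelWithCorners ℝ V H) {M : Type u₃} [TopologicalSpace M] [ChartedSpace H M]
  {E : Type u₄} [NormedAddCommGroup E] [InnerProductSpace ℝ E]

/-- The derivative of `F : M → E` at `p` (Mathlib's `mfderiv`; the tangent space of `M` at `p` is
the model space `V`). -/
noncomputable def surfaceDeriv (F : M → E) (p : M) : V →L[ℝ] E := mfderiv I 𝓘(ℝ, E) F p

/-- `F : M → E` is a `C^1` immersion: `C^1` with injective derivative at every point. -/
def IsC1Immersion (F : M → E) : Prop :=
  ContMDiff I 𝓘(ℝ, E) 1 F ∧ ∀ p : M, Function.Injective (surfaceDeriv I F p)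

/-- The tangent plane (direction plane) of the surface `F` at the point `p` of `M`: the range of
the derivative of `F` at `p`. -/
noncomputable def tangentPlane (F : M → E) (p : M) : Submodule ℝ E :=
  LinearMap.range (surfaceDeriv I F p).toLinearMap

/-- `γ` parametrises (for `|s| < ε`) a straight segment contained in the surface `F`, with
direction `v`, that passes through the point `p`: `γ` is a continuous path in `M` with
`γ 0 = p` and `F (γ s) = F p + s • v`, where `v ≠ 0`. -/
def IsSegmentThrough (F : M → E) (p : M) (ε : ℝ) (γ : ℝ → M) (v : E) : Prop :=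
  0 < ε ∧ v ≠ 0 ∧ ContinuousOn γ (Ioo (-ε) ε) ∧ γ 0 = p ∧
    ∀ s ∈ Ioo (-ε) ε, F (γ s) = F p + s • v

/-- The surface `F` is a torse: through every point there passes a straight segment contained in
the surface along which the tangent plane is constant. -/
def IsTorse (F : M → E) : Prop :=
  ∀ p : M, ∃ (ε : ℝ) (γ : ℝ → M) (v : E), IsSegmentThrough F p ε γ v ∧
    ∀ s ∈ Ioo (-ε) ε, tangentPlane I F (γ s) = tangentPlane I F p

/-- `n` is a continuous unit normal of the surface `F` on the piece `G`. -/
def IsUnitNormal (F : M → E) (G : Set M) (n : M → E) : Prop :=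
  ContinuousOn n G ∧ ∀ q ∈ G, ‖n q‖ = 1 ∧ ∀ w ∈ tangentPlane I F q, ⟪n q, w⟫ = 0

/-- The area of (the trace on the unit sphere of) a subset of `E`: its Lebesgue measure on the
unit sphere, Mathlib's `Measure.toSphere` of the volume of `E`. -/
noncomputable def area [MeasureSpace E] (S : Set E) : ENNReal :=
  (volume : Measure E).toSphere (Subtype.val ⁻¹' S)

/-- The surface `F` has bounded extrinsic curvature in the sense of Pogorelov: every point has an
open neighbourhood `G` that carries a continuous unit normal and for which there is a constant `C`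
such that, for the continuous unit normals `n` on `G`, every finite family of pairwise disjoint
(relatively) closed subsets `H i` of `G` satisfies `∑ area (n(H i)) ≤ C`. -/
def IsBECP [MeasureSpace E] (F : M → E) : Prop :=
  ∀ p : M, ∃ G : Set M, IsOpen G ∧ p ∈ G ∧ (∃ n, IsUnitNormal I F G n) ∧
    ∃ C : NNReal, ∀ n, IsUnitNormal I F G n → ∀ (k : ℕ) (H : Fin k → Set M),
      (∀ i, ∃ A : Set M, IsClosed A ∧ H i = A ∩ G) →
      (∀ i j, i ≠ j → Disjoint (H i) (H j)) →
      ∑ i, area (n '' H i) ≤ C

end Pool.Agent.Lib.MP_81590e_gt
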